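import Pool.Agent.Helper95.PN.Stmts
import Pool.Agent.Helper95.PM.Mol

/-!
# The linear bound: statements of the rows

Electrons have charge `+1`, the nucleus at `X j` has charge `- Z j` (sign convention here).
-/

set_option autoImplicit false

namespace Pool.Agent.Helper95.LN

open MeasureTheory Filter Pool.Agent.Helper95.PW

/-! ### the smeared Coulomb potential -/

/-- a bump on `[1, 2]` -/
noncomputable def bt (t : ℝ) : ℝ :=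
  Real.smoothTransition (4 * (t - 1)) * Real.smoothTransition (4 * (2 - t))

/-- `∫ bt^2` -/
noncomputable def cb : ℝ := ∫ t in (1 : ℝ)..2, bt t ^ 2

/-- `1` for `t ≤ 1`, `0` for `t ≥ 2`, decreasing -/
noncomputable def G1 (t : ℝ) : ℝ := (1 / cb) * ∫ u in t..2, bt u ^ 2

/-- `t` for `t ≤ 1`, constant for `t ≥ 2`, concave, increasing -/
noncomputable def G0 (t : ℝ) : ℝ := ∫ u in (0 : ℝ)..t, G1 u

/-- smeared potential: `1/|y|` for `|y| ≥ a`, constant for `|y| ≤ a/2` -/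
noncomputable def ph (a : ℝ) (y : R3) : ℝ :=
  if nr y < a / 2 then G0 2 / a else G0 (a / nr y) / a

/-- minus its Laplacian -/
noncomputable def et (a : ℝ) (y : R3) : ℝ := a * bt (a / nr y) ^ 2 / (cb * nr y ^ 4)

/-- total charge of `et` (for every `a`) -/
noncomputable def kap : ℝ := ∫ y, et 1 y

/-- orbital with `orb^2 = et / kap` -/
noncomputable def orb (a : ℝ) (y : R3) : ℝ :=
  Real.sqrt (a / (cb * kap)) * (bt (a / nr y) / nr y ^ 2)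

/-- row PHA -/
def ST_PHA : Prop := ∀ a : ℝ, 0 < a → ContDiff ℝ (⊤ : ℕ∞) (ph a) ∧
  (∀ y, a ≤ nr y → ph a y = 1 / nr y) ∧ (∀ y, nr y ≠ 0 → ph a y ≤ 1 / nr y) ∧
  (∀ y, 0 ≤ ph a y ∧ ph a y ≤ 2 / a) ∧
  (∀ (t : ℝ) (y : R3), 1 ≤ t → ph a y ≤ ph (a / t) y)

/-- row PHB: `∇ ph = - G1(a/r) y / r^3`, `lap ph = - et` -/
def ST_PHB : Prop := ∀ a : ℝ, 0 < a → (∀ y, lap (ph a) y = -et a y) ∧
  (∀ i y, |pd i (ph a) y| ≤ 4 / a ^ 2) ∧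
  (∀ i y, nr y ≠ 0 → |pd i (ph a) y| ≤ 1 / nr y ^ 2) ∧
  (∀ i y, a ≤ nr y → pd i (ph a) y = -(y i / nr y ^ 3))

/-- row PHC: properties of `et`, `kap` -/
def ST_PHC : Prop := 0 < cb ∧ 0 < kap ∧ (∃ C : ℝ, 0 < C ∧ ∀ (a : ℝ) (y : R3), 0 < a →
  et a y ≤ C / a ^ 3) ∧ ∀ a : ℝ, 0 < a → ContDiff ℝ (⊤ : ℕ∞) (et a) ∧ (∀ y, 0 ≤ et a y) ∧
  (∀ y, a ≤ nr y → et a y = 0) ∧ (∀ y, nr y ≤ a / 2 → et a y = 0) ∧ (∀ y, et a (-y) = et a y) ∧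
  ∫ y, et a y = kap

/-- row MVP (mean value property): `∫ h Δ(ph_(a/t) - ph_a) = ∫ (ph_(a/t) - ph_a) Δ h`
(compact support), `ph_(a/t) ≥ ph_a`, `t → ∞` (scaling `et (a/t) w = t^3 et a (t w)`). -/
def ST_MVP : Prop := ∀ (h : R3 → ℝ) (x : R3) (a : ℝ), ContDiff ℝ (⊤ : ℕ∞) h → 0 < a →
  ((∀ w, nr (w - x) ≤ a → lap h w = 0) → ∫ w, h w * et a (w - x) = kap * h x) ∧
  ((∀ w, nr (w - x) ≤ a → lap h w ≤ 0) → ∫ w, h w * et a (w - x) ≤ kap * h x)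

/-- row EID (Green, cut off at infinity) -/
def ST_EID : Prop := ∀ (a : ℝ) (x y : R3), 0 < a →
  Integrable (fun w => ∑ i, pd i (ph a) (w - x) * pd i (ph a) (w - y)) ∧
  ∫ w, ∑ i, pd i (ph a) (w - x) * pd i (ph a) (w - y) = ∫ w, ph a (w - x) * et a (w - y)

/-- the smeared Coulomb kernel -/
noncomputable def Kf (a : ℝ) (z : R3) : ℝ := 1 / kap * ∫ w, ph a (w - z) * et a w

/-- row KK (MVP with `h = ph a (· - z)`) -/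
def ST_KK : Prop := ∀ (a : ℝ) (z : R3), 0 < a → (2 * a ≤ nr z → Kf a z = 1 / nr z) ∧
  (nr z ≠ 0 → Kf a z ≤ 1 / nr z) ∧ 0 ≤ Kf a z ∧ Kf a z ≤ 2 / a

/-- row GRD: `∫ ∇(ph a (· - x)) · ∇F = kap * (mean of F)` -/
def ST_GRD : Prop := ∀ (a : ℝ) (x : R3) (F : R3 → ℝ), 0 < a → ContDiff ℝ (⊤ : ℕ∞) F →
  HasCompactSupport F →
  ∫ w, ∑ i, pd i (ph a) (w - x) * pd i F w = ∫ w, F w * et a (w - x)

/-! ### the field energy -/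

/-- total smeared potential -/
noncomputable def Pt {n M : ℕ} (b : ℝ) (X : Fin M → R3) (Z : Fin M → ℝ) (x : Cf n) (w : R3) : ℝ :=
  (∑ k, ph b (w - x k)) - ∑ j, Z j * ph b (w - X j)

/-- field energy -/
noncomputable def Dn {n M : ℕ} (b : ℝ) (X : Fin M → R3) (Z : Fin M → ℝ) (x : Cf n) : ℝ :=
  1 / kap * ∫ w, ∑ i, pd i (Pt b X Z x) w ^ 2

/-- repulsion of the nuclei, real charges -/
noncomputable def nucR {M : ℕ} (X : Fin M → R3) (Z : Fin M → ℝ) : ℝ :=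
  ∑ i, ∑ j, if i < j then Z i * Z j / nr (X i - X j) else 0

/-- total Coulomb energy -/
noncomputable def Vc {n M : ℕ} (X : Fin M → R3) (Z : Fin M → ℝ) (x : Cf n) : ℝ :=
  rep x - (∑ k, pot X Z (x k)) + nucR X Z

/-- short range part of the repulsion -/
noncomputable def Rem {n : ℕ} (b : ℝ) (x : Cf n) : ℝ :=
  ∑ k, ∑ l, if k < l then 1 / nr (x k - x l) - Kf b (x k - x l) else 0

/-- all points different -/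
def Dist {n M : ℕ} (X : Fin M → R3) (x : Cf n) : Prop :=
  (∀ k l, k ≠ l → nr (x k - x l) ≠ 0) ∧ ∀ k j, nr (x k - X j) ≠ 0

/-- row DEX (expand the square, EID, translation) -/
def ST_DEX : Prop := ∀ (b : ℝ) (n M : ℕ) (X : Fin M → R3) (Z : Fin M → ℝ) (x : Cf n), 0 < b →
  Integrable (fun w => ∑ i, pd i (Pt b X Z x) w ^ 2) ∧
  Dn b X Z x = (∑ k, ∑ l, Kf b (x k - x l)) - 2 * (∑ k, ∑ j, Z j * Kf b (x k - X j)) +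
    ∑ i, ∑ j, Z i * Z j * Kf b (X i - X j)

/-- row ES1 (DEX, KK) -/
def ST_ES1 : Prop := ∀ z d : ℝ, 0 ≤ z → 0 < d → ∃ C : ℝ, 0 < C ∧ ∀ (n M : ℕ)
  (X : Fin M → R3) (Z : Fin M → ℝ) (x : Cf n), Sep X d → Nuc n Z → (∀ j, Z j ≤ z) → Dist X x →
  1 / 2 * Dn (d / 8) X Z x + Rem (d / 8) x ≤ Vc X Z x + C * n + z * ∑ k, near1 X d (x k)

/-- number of electrons near the nucleus `i` -/
noncomputable def cnt {n M : ℕ} (X : Fin M → R3) (r : ℝ) (x : Cf n) (i : Fin M) : ℝ :=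
  ∑ k, if nr (x k - X i) < r then 1 else 0

/-- row NB (GRD, PHC, DEX): `F_i = 1` on the ball of radius `13 d / 8`, `0` outside `19 d / 10` -/
def ST_NB : Prop := ∀ z d : ℝ, 0 ≤ z → 0 < d → ∃ C : ℝ, 0 < C ∧ ∀ (n M : ℕ)
  (X : Fin M → R3) (Z : Fin M → ℝ) (x : Cf n), Sep X d → (∀ j, 0 ≤ Z j) → (∀ j, Z j ≤ z) →
  ∑ i, cnt X (3 / 2 * d) x i ^ 2 ≤ C * (M + Dn (d / 8) X Z x)

/-- field at `y` of the charges far from the nucleus `i` -/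
noncomputable def farE {n M : ℕ} (d : ℝ) (X : Fin M → R3) (Z : Fin M → ℝ) (x : Cf n) (i : Fin M)
    (m : Fin 3) (y : R3) : ℝ :=
  (∑ l, if nr (x l - X i) < 3 / 2 * d then 0 else (y m - x l m) / nr (y - x l) ^ 3) -
    ∑ j, if j = i then 0 else Z j * ((y m - X j m) / nr (y - X j) ^ 3)

/-- row FF (MVP, PHB, PHC, NB, DEX): mean value property in balls of radius `d / 4` for the
derivatives of `Pt` minus the near charges -/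
def ST_FF : Prop := ∀ z d : ℝ, 0 ≤ z → 0 < d → ∃ C : ℝ, 0 < C ∧ ∀ (n M : ℕ)
  (X : Fin M → R3) (Z : Fin M → ℝ) (x : Cf n), Sep X d → (∀ j, 0 ≤ Z j) → (∀ j, Z j ≤ z) →
  ∃ e : Fin M → ℝ, (∀ i m y, nr (y - X i) ≤ d → |farE d X Z x i m y| ≤ e i) ∧
  ∑ i, e i ^ 2 ≤ C * (M + Dn (d / 8) X Z x)

/-- the virial of the field `∇ g` -/
noncomputable def Vir {n M : ℕ} (X : Fin M → R3) (Z : Fin M → ℝ) (g : R3 → ℝ) (x : Cf n) : ℝ :=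
  1 / 2 * (∑ k, ∑ l, if k < l then (∑ m, (pd m g (x k) - pd m g (x l)) * (x k m - x l m)) /
    nr (x k - x l) ^ 3 else 0) -
  1 / 2 * ∑ k, ∑ j, Z j * ((∑ m, pd m g (x k) * (x k m - X j m)) / nr (x k - X j) ^ 3)

/-- row VIR (ES1, NB, FF, KK) -/
def ST_VIR : Prop := ∀ z d A : ℝ, 0 ≤ z → 0 < d → 1 ≤ A → ∃ C : ℝ, 0 < C ∧ ∀ (n M : ℕ)
  (X : Fin M → R3) (Z : Fin M → ℝ) (g : R3 → ℝ) (x : Cf n), Sep X d → Nuc n Z → 1 ≤ n →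
  (∀ j, 1 ≤ Z j) → (∀ j, Z j ≤ z) → ContDiff ℝ (⊤ : ℕ∞) g →
  (∀ i y, (∀ j, d ≤ nr (y - X j)) → pd i g y = 0) → (∀ i y, |pd i g y| ≤ A) →
  (∀ (y : R3) (ξ : Fin 3 → ℝ), -(A * ∑ i, ξ i ^ 2) ≤ ∑ i, ∑ l, pd i (pd l g) y * ξ i * ξ l) →
  Dist X x → 0 ≤ Vc X Z x + C * (n + ∑ k, near2 X d (x k)) ∧
  -(C * (Vc X Z x + C * (n + ∑ k, near2 X d (x k)))) ≤ Vir X Z g x

/-- row VID: exact form of REPL and ATTL -/
def ST_VID : Prop := ∀ (n M : ℕ) (X : Fin M → R3) (Z : Fin M → ℝ) (g : R3 → ℝ) (u : Wf n),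
  ContDiff ℝ (⊤ : ℕ∞) g → HasCompactSupport g → Sm u →
  (∀ s, Integrable (fun x : Cf n => Vir X Z g x * u s x ^ 2)) ∧
  ∑ s, ∫ x, (rep x - ∑ k, pot X Z (x k)) * (Pg g (u s) x * u s x) =
    ∑ s, ∫ x, Vir X Z g x * u s x ^ 2

/-- row PK4 (packing): the cubes with centre `X j` and side `d` are disjoint; compare with
`∫ 1/|w - y|^4` over `|w - y| ≥ d / 10` -/
def ST_PK4 : Prop := ∃ C : ℝ, 0 < C ∧ ∀ (M : ℕ) (X : Fin M → R3) (d : ℝ) (y : R3), 0 < d →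
  Sep X d → ∑ j, (if d ≤ nr (y - X j) then 1 / nr (y - X j) ^ 4 else 0) ≤ C / d ^ 4

/-- row MGX (MGB, PK4): at most one nucleus nearer than `d`; `mor s y ≤ C d / |y|^4` far away -/
def ST_MGX : Prop := ∀ d : ℝ, 0 < d → ∃ A : ℝ, 1 ≤ A ∧ ∀ (M : ℕ) (X : Fin M → R3) (s : ℝ),
  Sep X d → 0 < s → s ≤ d →
  ∀ y, ∑ j, mor s (y - X j) ≤ -(1 / 2) * lap (lap (mG X d s)) y + A

/-- row AED -/
def ST_AED : Prop := ∀ (n M : ℕ) (X : Fin M → R3), ∀ᵐ x : Cf n, Dist X x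

/-- row MLL (MGS, MGX, AED, KID, VID, VIR, PGB, HLOC, PAN, STB, INTM): the localized Morawetz
inequality, the constant does not see the size of the molecule -/
def ST_MLL : Prop := ∀ z d : ℝ, 0 ≤ z → 0 < d → ∃ C : ℝ, 0 < C ∧ ∀ (n M : ℕ)
  (X : Fin M → R3) (Z : Fin M → ℝ) (E B0 : ℝ), 1 ≤ M → 1 ≤ n → Sep X d → Nuc n Z →
  (∀ j, 1 ≤ Z j) → (∀ j, Z j ≤ z) → ∃ C' : ℝ, 0 < C' ∧ ∀ u : Wf n, Sm u → PW.sq u ≤ 2 →
  kin u ≤ B0 → ∀ s : ℝ, 0 < s → s ≤ d → ∑ j, Z j * one (fun y => mor s (y - X j)) u ≤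
    C * (QM X Z u - kin u + nucR X Z * PW.sq u + C * (kin u + n)) + C' * Real.sqrt (resM X Z E u)

/-! ### upper bound of the energy -/

/-- row TRE (Helper3/PW/En.lean, Prod.lean: `wv`, `ps`; supports disjoint) -/
def ST_TRE : Prop := ∀ (n : ℕ) (f : Fin n → R3 → ℝ), (∀ l, ContDiff ℝ (⊤ : ℕ∞) (f l)) →
  (∀ l, HasCompactSupport (f l)) →
  (∀ i j y, y ∈ tsupport (f i) → y ∈ tsupport (f j) → i = j) → (∀ l, ∫ y, f l y ^ 2 = 1) →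
  ∃ ψ : Wf n, Sm ψ ∧ Anti ψ ∧ 0 < PW.sq ψ ∧ kin ψ = PW.sq ψ * ∑ l, ∑ i, ∫ y, pd i (f l) y ^ 2 ∧
  pair ψ = PW.sq ψ * (∑ k, ∑ l, if k < l then ∫ x, ∫ y, f k x ^ 2 * f l y ^ 2 / nr (x - y) else 0) ∧
  ∀ (M : ℕ) (X : Fin M → R3) (Z : Fin M → ℝ),
    one (pot X Z) ψ = PW.sq ψ * ∑ l, ∑ j, Z j * ∫ y, f l y ^ 2 / nr (y - X j)

/-- row ORB -/
def ST_ORB : Prop := ∃ C : ℝ, 0 < C ∧ ∀ a : ℝ, 0 < a → ContDiff ℝ (⊤ : ℕ∞) (orb a) ∧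
  HasCompactSupport (orb a) ∧ (∀ y, y ∈ tsupport (orb a) → a / 2 ≤ nr y ∧ nr y ≤ a) ∧
  (∀ y, orb a y ^ 2 = et a y / kap) ∧ ∫ y, orb a y ^ 2 = 1 ∧
  ∑ i, ∫ y, pd i (orb a) y ^ 2 ≤ C / a ^ 2

/-- row PT1 (MVP with `h = ph a (· - p)`) -/
def ST_PT1 : Prop := ∀ (a : ℝ) (p X0 : R3), 0 < a → 2 * a ≤ nr (p - X0) →
  ∫ y, et a (y - X0) / nr (y - p) = kap / nr (p - X0)

/-- row PT2 (PT1 twice; and the trivial bound) -/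
def ST_PT2 : Prop := ∀ (a a' : ℝ) (X0 Y0 : R3), 0 < a → 0 < a' →
  (3 * (a + a') ≤ nr (X0 - Y0) →
    ∫ x, ∫ y, et a (x - X0) * et a' (y - Y0) / nr (x - y) = kap ^ 2 / nr (X0 - Y0)) ∧
  (a' ≤ a / 4 → ∫ x, ∫ y, et a (x - X0) * et a' (y - X0) / nr (x - y) ≤ kap ^ 2 * (4 / a) ∧
    ∫ x, ∫ y, et a' (x - X0) * et a (y - X0) / nr (x - y) ≤ kap ^ 2 * (4 / a))

/-- row EB (TRE, ORB, PT1, PT2): `f_k = orb (d / 2 / 4^m) (· - X j)` for the electrons `k = (j, m)`,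
`m < Z j` (`finSigmaFinEquiv`); the Coulomb energy between different atoms is zero -/
def ST_EB : Prop := ∀ z d : ℝ, 0 ≤ z → 0 < d → ∃ C : ℝ, 0 < C ∧ ∀ (n M : ℕ)
  (X : Fin M → R3) (Z : Fin M → ℕ) (E : ℝ), Sep X d → ∑ j, Z j = n → (∀ j, (Z j : ℝ) ≤ z) →
  LowM n X (fun j => (Z j : ℝ)) E → E + nucR X (fun j => (Z j : ℝ)) ≤ C * n

/-- row TBL (ES1, AED, HLOC, APXM, LMTM, QHM, INTM; see Helper95/PN/TB.lean) -/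
def ST_TBL : Prop := ∀ z d Ce : ℝ, 0 ≤ z → 0 < d → 0 ≤ Ce → ∃ C : ℝ, 0 < C ∧ ∀ (n M : ℕ)
  (X : Fin M → R3) (Z : Fin M → ℝ) (E : ℝ) (u : Wf n), 1 ≤ n → Nuc n Z → (∀ j, Z j ≤ z) →
  Sep X d → E + nucR X Z ≤ Ce * n → Sm u → PW.sq u ≤ 2 → resM X Z E u ≤ 1 / 2 → kin u ≤ C * n

/-- row MTL (MLL, TBL, INLJ, E0, POTB, LIMG, CUT, APXM, LMTM, QHM, INTM; see
Helper53/PN/MTH.lean) -/
def ST_MTL : Prop := ∀ z d Ce : ℝ, 0 ≤ z → 0 < d → 0 ≤ Ce → ∃ C : ℝ, 0 < C ∧ ∀ (n M : ℕ)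
  (X : Fin M → R3) (Z : Fin M → ℝ) (E : ℝ) (φ : Wf n) (G : Fin n → Fin 3 → Wf n), 1 ≤ n →
  1 ≤ M → Nuc n Z → (∀ j, 1 ≤ Z j) → (∀ j, Z j ≤ z) → Sep X d → E + nucR X Z ≤ Ce * n →
  GroundM n X Z E φ G → mom G ≤ C * n

end Pool.Agent.Helper95.LN
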