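import Pool.Agent.Helper95.LN.Stmts

set_option autoImplicit false

namespace Pool.Agent.Helper95.LN

open Pool.Agent.Helper95.PW

theorem mol_lin_of (hI : ST_INTM) (hE : ST_EB) (hT : ST_MTL) (z d : ℝ) (hz : 0 < z)
    (hd : 0 < d) : ∃ C : ℝ, 0 < C ∧ ∀ (n M : ℕ)
    (X : Fin M → R3) (Z : Fin M → ℕ) (E : ℝ) (φ : Wf n) (G : Fin n → Fin 3 → Wf n), 1 ≤ M →
    MolGround n X Z E φ G → (∀ j, (Z j : ℝ) ≤ z) → (∀ i j, i ≠ j → d ≤ nr (X i - X j)) →
    mom G ≤ C * n := by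
  obtain ⟨Ce, hCe, h1⟩ := hE z (d / 4) hz.le (by positivity)
  obtain ⟨C, hC, h2⟩ := hT z (d / 4) Ce hz.le (by positivity) hCe.le
  refine ⟨C, hC, ?_⟩
  intro n M X Z E φ G hM h hZ hX
  have hn : 1 ≤ n := by
    rw [← h.neutral]
    have h0 : Z ⟨0, hM⟩ ≤ ∑ j, Z j := Finset.single_le_sum (fun _ _ => Nat.zero_le _)
      (Finset.mem_univ _)
    exact (h.charge _).trans h0
  have hS : Sep X (d / 4) := by
    intro i j hij
    have := hX i j hij
    linarith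
  have hG := mol_ground hI h
  have e1 := h1 n M X Z (E - nuc X Z) hS h.neutral hZ hG.low
  exact h2 n M X (fun j => (Z j : ℝ)) (E - nuc X Z) φ G hn hM (mol_nuc h)
    (fun j => by exact_mod_cast h.charge j) hZ hS e1 hG

end Pool.Agent.Helper95.LN
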